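import Mathlib

/-!
# Induced bipartite subgraphs, average eccentricity and neighbourhood independence
-/

set_option autoImplicit false

open Finset

namespace Pool.Agent.Results.MP_b44c21_co.BipartiteBound

variable {V : Type*} [Fintype V]

/-- The eccentricity of `v`. -/
noncomputable def ecc (G : SimpleGraph V) (v : V) : ℕ := univ.sup fun u => G.dist v u

/-- The average eccentricity. -/
noncomputable def avgEcc (G : SimpleGraph V) : ℝ := (∑ v, (ecc G v : ℝ)) / Fintype.card V

/-- `l(v)`: the independence number of the subgraph induced on the open neighbourhood of `v`. -/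
noncomputable def loc (G : SimpleGraph V) (v : V) : ℕ := (G.induce (G.neighborSet v)).indepNum

/-- `L(G)`: the maximum of `l(v)` over all vertices. -/
noncomputable def L (G : SimpleGraph V) : ℕ := univ.sup (loc G)

/-- `b(G)`: the largest number of vertices of an induced bipartite subgraph. -/
noncomputable def b (G : SimpleGraph V) : ℕ :=
  sSup {k | ∃ S : Finset V, (G.induce (S : Set V)).Colorable 2 ∧ S.card = k}

theorem card_le_b (G : SimpleGraph V) (S : Finset V) (hS : (G.induce (S : Set V)).Colorable 2) :
    S.card ≤ b G := by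
  apply le_csSup
  · refine ⟨Fintype.card V, ?_⟩
    rintro k ⟨T, -, rfl⟩
    exact card_le_univ T
  · exact ⟨S, hS, rfl⟩

/-- A set of vertices in which adjacent vertices are at different distances from `v` induces a
bipartite graph. -/
theorem card_le_b_of_levels (G : SimpleGraph V) (hG : G.Connected) (v : V) (S : Finset V)
    (hS : ∀ x ∈ S, ∀ y ∈ S, G.Adj x y → G.dist v x ≠ G.dist v y) : S.card ≤ b G := by
  apply card_le_b
  refine ⟨SimpleGraph.Coloring.mk (fun x => (⟨G.dist v x.1 % 2, Nat.mod_lt _ (by norm_num)⟩ :
    Fin 2)) ?_⟩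
  rintro ⟨x, hx⟩ ⟨y, hy⟩ hxy heq
  rw [SimpleGraph.comap_adj] at hxy
  simp only [Function.Embedding.subtype_apply] at hxy
  have h1 := hS x (mem_coe.1 hx) y (mem_coe.1 hy) hxy
  have h2 : G.dist v y ≤ G.dist v x + G.dist x y := hG.dist_triangle
  have h3 : G.dist v x ≤ G.dist v y + G.dist y x := hG.dist_triangle
  have h4 : G.dist x y = 1 := SimpleGraph.dist_eq_one_iff_adj.2 hxy
  have h5 : G.dist y x = 1 := SimpleGraph.dist_eq_one_iff_adj.2 hxy.symm
  have h6 : G.dist v x % 2 = G.dist v y % 2 := congrArg Fin.val heq
  omega

omit [Fintype V] in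
theorem exists_geodesic (G : SimpleGraph V) (hG : G.Connected) (v s : V) :
    ∃ p : ℕ → V, ∀ j, j ≤ G.dist v s → G.dist v (p j) = j ∧ G.dist (p j) s = G.dist v s - j := by
  obtain ⟨w, hw⟩ := hG.exists_walk_length_eq_dist v s
  refine ⟨w.getVert, ?_⟩
  intro j hj
  have h1 : G.dist v (w.getVert j) ≤ j := by
    refine le_trans (SimpleGraph.dist_le (w.take j)) ?_
    rw [SimpleGraph.Walk.take_length]
    exact min_le_left _ _
  have h2 : G.dist (w.getVert j) s ≤ w.length - j := by
    refine le_trans (SimpleGraph.dist_le (w.drop j)) ?_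
    rw [SimpleGraph.Walk.drop_length]
  have h3 : G.dist v s ≤ G.dist v (w.getVert j) + G.dist (w.getVert j) s := hG.dist_triangle
  omega

omit [Fintype V] in
theorem exists_indep (G : SimpleGraph V) (v : V) :
    ∃ I : Finset V, I.card = loc G v ∧ (∀ x ∈ I, G.Adj v x) ∧ ∀ x ∈ I, ∀ y ∈ I, ¬ G.Adj x y := by
  classical
  obtain ⟨I, hI⟩ := (G.induce (G.neighborSet v)).exists_isNIndepSet_indepNum
  refine ⟨I.map ⟨Subtype.val, Subtype.val_injective⟩, ?_, ?_, ?_⟩
  · rw [card_map]
    exact hI.card_eq
  · intro x hx
    obtain ⟨y, -, rfl⟩ := mem_map.1 hx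
    exact y.2
  · intro x hx y hy
    obtain ⟨x', hx', rfl⟩ := mem_map.1 hx
    obtain ⟨y', hy', rfl⟩ := mem_map.1 hy
    intro hadj
    have hne : x' ≠ y' := by
      rintro rfl
      exact G.loopless.irrefl _ hadj
    exact hI.isIndepSet (mem_coe.2 hx') (mem_coe.2 hy') hne hadj

theorem main_count (G : SimpleGraph V) (hG : G.Connected) (v s t : V)
    (hst : G.dist v t ≤ G.dist v s) (I : Finset V) (hI1 : ∀ x ∈ I, G.Adj v x)
    (hI2 : ∀ x ∈ I, ∀ y ∈ I, ¬ G.Adj x y) (hs : 1 ≤ G.dist v s) :
    I.card + G.dist s t ≤ b G + 1 ∧ I.card + G.dist v s ≤ b G := by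
  classical
  obtain ⟨p, hp⟩ := exists_geodesic G hG v s
  obtain ⟨q, hq⟩ := exists_geodesic G hG v t
  set a := G.dist v s with ha
  set c := G.dist v t with hc
  set D := G.dist s t with hD
  set T : Finset ℕ := (Icc 2 c).filter fun j => a + c + 2 ≤ D + 2 * j with hT
  have hdpq : ∀ j ∈ T, p j ≠ q j ∧ ¬ G.Adj (p j) (q j) := by
    intro j hj
    rw [hT, mem_filter, mem_Icc] at hj
    have h1 := hp j (by omega)
    have h2 := hq j (by omega)
    have h3 : G.dist s t ≤ G.dist s (p j) + G.dist (p j) t := hG.dist_triangle
    have h4 : G.dist (p j) t ≤ G.dist (p j) (q j) + G.dist (q j) t := hG.dist_triangle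
    have h5 : G.dist s (p j) = G.dist (p j) s := SimpleGraph.dist_comm
    have h6 : 2 ≤ G.dist (p j) (q j) := by omega
    constructor
    · intro h
      rw [h, SimpleGraph.dist_self] at h6
      omega
    · intro h
      have := SimpleGraph.dist_eq_one_iff_adj.2 h
      omega
  set A : Finset V := insert v I with hA
  set B : Finset V := (Icc 2 a).image p with hB
  set C : Finset V := T.image q with hC
  have hdI : ∀ x ∈ I, G.dist v x = 1 := fun x hx => SimpleGraph.dist_eq_one_iff_adj.2 (hI1 x hx)
  have hvI : v ∉ I := fun h => G.loopless.irrefl _ (hI1 v h)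
  have hcA : A.card = I.card + 1 := card_insert_of_notMem hvI
  have hcB : B.card = a - 1 := by
    rw [hB, card_image_of_injOn]
    · rw [Nat.card_Icc]; omega
    · intro i hi j hj hij
      rw [mem_coe, mem_Icc] at hi hj
      have h1 := hp i (by omega)
      have h2 := hp j (by omega)
      rw [← h1.1, ← h2.1, hij]
  have hcC : C.card = T.card := by
    rw [hC, card_image_of_injOn]
    intro i hi j hj hij
    rw [mem_coe, hT, mem_filter, mem_Icc] at hi hj
    have h1 := hq i (by omega)
    have h2 := hq j (by omega)
    rw [← h1.1, ← h2.1, hij]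
  have hlA : ∀ x ∈ A, G.dist v x ≤ 1 := by
    intro x hx
    rw [hA, mem_insert] at hx
    rcases hx with rfl | hx
    · rw [SimpleGraph.dist_self]; omega
    · rw [hdI x hx]
  have hlB : ∀ x ∈ B, 2 ≤ G.dist v x := by
    intro x hx
    rw [hB, mem_image] at hx
    obtain ⟨j, hj, rfl⟩ := hx
    rw [mem_Icc] at hj
    rw [(hp j (by omega)).1]
    omega
  have hlC : ∀ x ∈ C, 2 ≤ G.dist v x := by
    intro x hx
    rw [hC, mem_image] at hx
    obtain ⟨j, hj, rfl⟩ := hx
    rw [hT, mem_filter, mem_Icc] at hj
    rw [(hq j (by omega)).1]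
    omega
  have hBC : Disjoint B C := by
    rw [disjoint_left]
    intro x hx hx'
    rw [hB, mem_image] at hx
    rw [hC, mem_image] at hx'
    obtain ⟨j, hj, rfl⟩ := hx
    obtain ⟨i, hi, hij⟩ := hx'
    rw [mem_Icc] at hj
    have hi' := hi
    rw [hT, mem_filter, mem_Icc] at hi'
    have h1 := (hp j (by omega)).1
    have h2 := (hq i (by omega)).1
    rw [hij] at h2
    have : i = j := by omega
    subst this
    exact (hdpq i hi).1 hij.symm
  have hABC : Disjoint A (B ∪ C) := by
    rw [disjoint_left]
    intro x hx hx'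
    have h1 := hlA x hx
    rcases mem_union.1 hx' with h | h
    · have := hlB x h; omega
    · have := hlC x h; omega
  have hcard : (A ∪ (B ∪ C)).card = I.card + 1 + ((a - 1) + T.card) := by
    rw [card_union_of_disjoint hABC, card_union_of_disjoint hBC, hcA, hcB, hcC]
  have hle : (A ∪ (B ∪ C)).card ≤ b G := by
    apply card_le_b_of_levels G hG v
    have key : ∀ x ∈ A ∪ (B ∪ C), ∀ y ∈ A ∪ (B ∪ C), G.dist v x = G.dist v y → x ≠ y →
        ¬ G.Adj x y := by
      intro x hx y hy hxy hne
      rcases mem_union.1 hx with hx | hx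
      · rcases mem_union.1 hy with hy | hy
        · rw [hA, mem_insert] at hx hy
          rcases hx with hxv | hxI <;> rcases hy with hyv | hyI
          · exact absurd (hxv.trans hyv.symm) hne
          · rw [hxv, SimpleGraph.dist_self, hdI y hyI] at hxy
            omega
          · rw [hyv, SimpleGraph.dist_self, hdI x hxI] at hxy
            omega
          · exact hI2 x hxI y hyI
        · have h1 := hlA x hx
          rcases mem_union.1 hy with h | h
          · have := hlB y h; omega
          · have := hlC y h; omega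
      · rcases mem_union.1 hy with hy | hy
        · have h1 := hlA y hy
          rcases mem_union.1 hx with h | h
          · have := hlB x h; omega
          · have := hlC x h; omega
        · rcases mem_union.1 hx with hx | hx <;> rcases mem_union.1 hy with hy | hy
          · rw [hB, mem_image] at hx hy
            obtain ⟨j, hj, rfl⟩ := hx
            obtain ⟨i, hi, rfl⟩ := hy
            rw [mem_Icc] at hj hi
            rw [(hp j (by omega)).1, (hp i (by omega)).1] at hxy
            rw [hxy] at hne
            exact absurd rfl hne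
          · rw [hB, mem_image] at hx
            rw [hC, mem_image] at hy
            obtain ⟨j, hj, rfl⟩ := hx
            obtain ⟨i, hi, rfl⟩ := hy
            have hi' := hi
            rw [hT, mem_filter, mem_Icc] at hi'
            rw [mem_Icc] at hj
            rw [(hp j (by omega)).1, (hq i (by omega)).1] at hxy
            subst hxy
            exact (hdpq _ hi).2
          · rw [hC, mem_image] at hx
            rw [hB, mem_image] at hy
            obtain ⟨j, hj, rfl⟩ := hx
            obtain ⟨i, hi, rfl⟩ := hy
            have hj' := hj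
            rw [hT, mem_filter, mem_Icc] at hj'
            rw [mem_Icc] at hi
            rw [(hq j (by omega)).1, (hp i (by omega)).1] at hxy
            subst hxy
            exact fun h => (hdpq _ hj).2 h.symm
          · rw [hC, mem_image] at hx hy
            obtain ⟨j, hj, rfl⟩ := hx
            obtain ⟨i, hi, rfl⟩ := hy
            rw [hT, mem_filter, mem_Icc] at hj hi
            rw [(hq j (by omega)).1, (hq i (by omega)).1] at hxy
            rw [hxy] at hne
            exact absurd rfl hne
    intro x hx y hy hadj heq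
    exact key x hx y hy heq hadj.ne hadj
  have htri : D ≤ a + c := by
    have h3 : G.dist s t ≤ G.dist s v + G.dist v t := hG.dist_triangle
    have h5 : G.dist s v = G.dist v s := SimpleGraph.dist_comm
    omega
  have hTc : D ≤ a + T.card + 1 := by
    by_cases hc0 : c = 0
    · omega
    have hTsub : Icc (max 2 ((a + c + 3 - D) / 2)) c ⊆ T := by
      intro j hj
      rw [mem_Icc] at hj
      rw [hT, mem_filter, mem_Icc]
      have h1 := le_trans (le_max_left _ _) hj.1
      have h2 := le_trans (le_max_right _ _) hj.1
      omega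
    have h1 := card_le_card hTsub
    rw [Nat.card_Icc] at h1
    rcases le_total 2 ((a + c + 3 - D) / 2) with h | h
    · rw [max_eq_right h] at h1
      omega
    · rw [max_eq_left h] at h1
      omega
  omega

/-- Every finite connected graph satisfies `b(G) ≥ ⌊avgEcc(G) + L(G)⌋`. -/
theorem result (V : Type*) [Fintype V] (G : SimpleGraph V) (hG : G.Connected) :
    ⌊avgEcc G + (L G : ℝ)⌋ ≤ (b G : ℤ) := by
  classical
  have : Nonempty V := hG.nonempty
  have hne : (univ : Finset V).Nonempty := univ_nonempty
  obtain ⟨v, -, hv⟩ := exists_mem_eq_sup univ hne (loc G)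
  have hvL : loc G v = L G := hv.symm
  obtain ⟨I, hI0, hI1, hI2⟩ := exists_indep G v
  -- eccentricities
  have hecc : ∀ x : V, ∃ u, G.dist x u = ecc G x := by
    intro x
    obtain ⟨u, -, hu⟩ := exists_mem_eq_sup univ hne (fun u => G.dist x u)
    exact ⟨u, hu.symm⟩
  have hle : ∀ x u : V, G.dist x u ≤ ecc G x := fun x u =>
    le_sup (f := fun u => G.dist x u) (mem_univ u)
  obtain ⟨s₀, -, hs₀⟩ := exists_mem_eq_sup univ hne (ecc G)
  obtain ⟨t₀, ht₀⟩ := hecc s₀
  set D := univ.sup (ecc G) with hD
  have hD1 : ∀ x, ecc G x ≤ D := fun x => le_sup (f := ecc G) (mem_univ x)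
  have hDst : G.dist s₀ t₀ = D := by rw [ht₀, hs₀]
  have hn : (0 : ℝ) < Fintype.card V := by exact_mod_cast Fintype.card_pos
  by_cases hV : Subsingleton V
  · -- one vertex
    have h1 : 1 ≤ b G := by
      have := card_le_b_of_levels G hG v {v} (by
        intro x hx y hy hadj
        rw [mem_singleton] at hx hy
        subst hx hy
        exact absurd hadj (G.loopless.irrefl _))
      simpa using this
    have h2 : L G = 0 := by
      rw [← hvL, ← hI0, card_eq_zero]
      apply eq_empty_of_forall_notMem
      intro x hx
      have := hI1 x hx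
      rw [Subsingleton.elim x v] at this
      exact G.loopless.irrefl _ this
    have h3 : avgEcc G = 0 := by
      unfold avgEcc
      have : ∑ v, (ecc G v : ℝ) = 0 := by
        apply sum_eq_zero
        intro x _
        obtain ⟨u, hu⟩ := hecc x
        rw [← hu, Subsingleton.elim u x, SimpleGraph.dist_self]
        exact Nat.cast_zero
      rw [this, zero_div]
    rw [h2, h3]
    simp
  · rw [not_subsingleton_iff_nontrivial] at hV
    have hpos : ∀ x, 1 ≤ ecc G x := by
      intro x
      obtain ⟨y, hy⟩ := exists_ne x
      have h1 : G.dist x y ≠ 0 := fun h => hy (hG.dist_eq_zero_iff.1 h).symm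
      have := hle x y
      omega
    -- `b ≥ L + ecc v`
    obtain ⟨u, hu⟩ := hecc v
    have hb1 : L G + ecc G v ≤ b G := by
      have := (main_count G hG v u v (by rw [SimpleGraph.dist_self]; omega) I hI1 hI2
        (by rw [hu]; exact hpos v)).2
      rw [hI0, hvL, hu] at this
      exact this
    -- `b ≥ L + D - 1`
    have hb2 : L G + D ≤ b G + 1 := by
      have hDp : 1 ≤ D := le_trans (hpos v) (hD1 v)
      have htri : G.dist s₀ t₀ ≤ G.dist s₀ v + G.dist v t₀ := hG.dist_triangle
      have hcm : G.dist s₀ v = G.dist v s₀ := SimpleGraph.dist_comm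
      rcases le_total (G.dist v t₀) (G.dist v s₀) with h | h
      · have := (main_count G hG v s₀ t₀ h I hI1 hI2 (by omega)).1
        rw [hI0, hvL, hDst] at this
        exact this
      · have := (main_count G hG v t₀ s₀ h I hI1 hI2 (by omega)).1
        rw [hI0, hvL, SimpleGraph.dist_comm, hDst] at this
        exact this
    have hsum : ∑ x, ecc G x ≤ Fintype.card V * D := by
      calc ∑ x, ecc G x ≤ ∑ _x : V, D := sum_le_sum fun x _ => hD1 x
        _ = Fintype.card V * D := by rw [sum_const, card_univ, smul_eq_mul]
    rcases hsum.lt_or_eq with hlt | heq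
    · -- the average is smaller than `D`
      have h1 : avgEcc G < D := by
        unfold avgEcc
        rw [div_lt_iff₀ hn]
        have : ((∑ x, ecc G x : ℕ) : ℝ) < ((Fintype.card V * D : ℕ) : ℝ) := by exact_mod_cast hlt
        push_cast at this
        linarith
      have h2 : avgEcc G + (L G : ℝ) < ((D + L G : ℕ) : ℤ) := by
        push_cast
        linarith
      have h3 := Int.floor_lt.2 h2
      omega
    · -- all eccentricities are equal to `D`
      have h1 : ∀ x, ecc G x = D := by
        intro x
        by_contra hx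
        have hx' : ecc G x < D := lt_of_le_of_ne (hD1 x) hx
        have : ∑ x, ecc G x < ∑ _x : V, D :=
          sum_lt_sum (fun x _ => hD1 x) ⟨x, mem_univ x, hx'⟩
        rw [sum_const, card_univ, smul_eq_mul] at this
        omega
      have h2 : avgEcc G = D := by
        unfold avgEcc
        rw [div_eq_iff hn.ne']
        have : ((∑ x, ecc G x : ℕ) : ℝ) = ((Fintype.card V * D : ℕ) : ℝ) := by exact_mod_cast heq
        push_cast at this
        linarith
      have h3 : avgEcc G + (L G : ℝ) = (((D + L G : ℕ) : ℤ) : ℝ) := by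
        rw [h2]
        push_cast
        ring
      rw [h3, Int.floor_intCast]
      have := h1 v
      omega

end Pool.Agent.Results.MP_b44c21_co.BipartiteBound
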